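import Pool.Agent.K7.H37.UK.Stm

/-! # Project UK, job GR: an ascending polygonal arc is a graph -/

set_option autoImplicit false

noncomputable section

namespace Pool.Agent.K7.H81.UK

open Set Pool.Agent.K7.H37.UK

/-- the affine interpolation -/
def aff (a b : ℂ × ℝ) (t : ℝ) : ℂ := a.1 + (((t - a.2) / (b.2 - a.2) : ℝ) : ℂ) * (b.1 - a.1)

theorem aff_left (a b : ℂ × ℝ) : aff a b a.2 = a.1 := by simp [aff]

theorem aff_right {a b : ℂ × ℝ} (h : a.2 < b.2) : aff a b b.2 = b.1 := by
  have : b.2 - a.2 ≠ 0 := by linarith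
  simp [aff, div_self this]

theorem aff_cont (a b : ℂ × ℝ) : Continuous (aff a b) := by
  unfold aff
  refine continuous_const.add (Continuous.mul ?_ continuous_const)
  exact Complex.continuous_ofReal.comp ((continuous_id.sub continuous_const).div_const _)

theorem aff_l {a b : ℂ × ℝ} (t : ℝ) :
    aff a b t = a.1 + ((t - a.2 : ℝ) : ℂ) * ((b.1 - a.1) / ((b.2 - a.2 : ℝ) : ℂ)) := by
  unfold aff
  push_cast
  ring

theorem aff_r {a b : ℂ × ℝ} (h : a.2 < b.2) (t : ℝ) :
    aff a b t = b.1 + ((b.2 - t : ℝ) : ℂ) * ((a.1 - b.1) / ((b.2 - a.2 : ℝ) : ℂ)) := by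
  have h0 : ((b.2 - a.2 : ℝ) : ℂ) ≠ 0 := by
    rw [Complex.ofReal_ne_zero]
    linarith
  unfold aff
  push_cast at *
  field_simp
  ring

theorem seg_graph {a b : ℂ × ℝ} (h : a.2 < b.2) :
    segment ℝ a b = (fun t => (aff a b t, t)) '' Icc a.2 b.2 := by
  have h0 : b.2 - a.2 ≠ 0 := by linarith
  rw [segment_eq_image]
  ext x
  constructor
  · rintro ⟨θ, ⟨h1, h2⟩, rfl⟩
    refine ⟨(1 - θ) * a.2 + θ * b.2, ⟨by nlinarith, by nlinarith⟩, ?_⟩
    have h3 : ((1 - θ) * a.2 + θ * b.2 - a.2) / (b.2 - a.2) = θ := by
      field_simp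
      ring
    refine Prod.ext ?_ ?_
    · simp only [aff, h3, Prod.fst_add, Prod.smul_fst, Complex.real_smul]
      push_cast
      ring
    · simp
  · rintro ⟨t, ⟨h1, h2⟩, rfl⟩
    refine ⟨(t - a.2) / (b.2 - a.2), ⟨?_, ?_⟩, ?_⟩
    · exact div_nonneg (by linarith) (by linarith)
    · rw [div_le_one (by linarith)]
      linarith
    · refine Prod.ext ?_ ?_
      · simp only [aff, Prod.fst_add, Prod.smul_fst, Complex.real_smul]
        push_cast
        ring
      · simp only [Prod.snd_add, Prod.smul_snd, smul_eq_mul]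
        field_simp
        ring

theorem arc_cons (a b : ℂ × ℝ) (l : List (ℂ × ℝ)) :
    arc (a :: b :: l) = segment ℝ a b ∪ arc (b :: l) := by
  ext x
  simp [arc]

theorem stGr : StGr := by
  intro X
  induction X with
  | nil => intro _ _ h; simp at h
  | cons a Y ih =>
    intro bot top h1 h2 h3 h4
    rcases Y with _ | ⟨b, Z⟩
    · simp at h1
    · simp only [List.head?_cons, Option.some.injEq] at h2
      subst h2
      rw [List.isChain_cons_cons] at h4
      obtain ⟨hab, h4⟩ := h4
      rcases Z with _ | ⟨c, W⟩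
      · simp only [List.getLast?_cons_cons, List.getLast?_singleton, Option.some.injEq] at h3
        subst h3
        refine ⟨hab, aff a b, aff_cont a b, aff_left a b, aff_right hab, ?_, ?_⟩
        · rw [arc_cons, seg_graph hab]
          have : arc [b] = ∅ := by
            ext x
            simp [arc]
          rw [this, union_empty]
        · refine ⟨1, (b.1 - a.1) / ((b.2 - a.2 : ℝ) : ℂ), (a.1 - b.1) / ((b.2 - a.2 : ℝ) : ℂ),
            one_pos, fun t _ => ?_, fun t _ => ?_⟩
          · rw [aff_left, aff_l]
          · rw [aff_right hab, aff_r hab]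
      · obtain ⟨hlt, p, hp, hp1, hp2, hp3, ε, c0, c1, hε, _, hc1⟩ := ih b top (by simp) (by simp)
          (by simpa using h3) h4
        obtain ⟨q, hq, hq1, hq2⟩ : ∃ q : ℝ → ℂ, Continuous q ∧ (∀ t, t ≤ b.2 → q t = aff a b t) ∧
            ∀ t, b.2 ≤ t → q t = p t := by
          refine ⟨fun t => if t ≤ b.2 then aff a b t else p t, ?_, ?_, ?_⟩
          · refine Continuous.if_le (aff_cont a b) hp continuous_id continuous_const ?_
            intro t ht
            rw [ht, aff_right hab, hp1]
          · intro t ht
            exact if_pos ht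
          · intro t ht
            by_cases h : t ≤ b.2
            · have : t = b.2 := le_antisymm h ht
              subst this
              simp only [le_refl, if_true]
              rw [aff_right hab, hp1]
            · exact if_neg h
        refine ⟨hab.trans hlt, q, hq, ?_, ?_, ?_, ?_⟩
        · rw [hq1 _ hab.le, aff_left]
        · rw [hq2 _ hlt.le, hp2]
        · rw [arc_cons, seg_graph hab, hp3, ← Icc_union_Icc_eq_Icc hab.le hlt.le, image_union]
          congr 1
          · refine image_congr fun t ht => ?_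
            rw [hq1 t ht.2]
          · refine image_congr fun t ht => ?_
            rw [hq2 t ht.1]
        · refine ⟨min (b.2 - a.2) (min ε (top.2 - b.2)), (b.1 - a.1) / ((b.2 - a.2 : ℝ) : ℂ), c1,
            ?_, ?_, ?_⟩
          · exact lt_min (by linarith) (lt_min hε (by linarith))
          · intro t ht
            have h5 := min_le_left (b.2 - a.2) (min ε (top.2 - b.2))
            have h6 : t ≤ b.2 := by linarith [ht.2]
            rw [hq1 t h6, hq1 a.2 hab.le, aff_left]
            exact aff_l t
          · intro t ht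
            have h5 := min_le_right (b.2 - a.2) (min ε (top.2 - b.2))
            have h6 := min_le_left ε (top.2 - b.2)
            have h7 := min_le_right ε (top.2 - b.2)
            have h8 : b.2 ≤ t := by linarith [ht.1]
            rw [hq2 t h8, hq2 top.2 hlt.le]
            exact hc1 t ⟨by linarith [ht.1], ht.2⟩

end Pool.Agent.K7.H81.UK
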